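import Mathlib

/-!
# Definitions for `MP_7934a7_lc.OneQuestion`

Black-box model: oracles with hidden unique witnesses, verifiers with two strings `y`, `z`.
-/

namespace Pool.Agent.H.MP_7934a7_lc.h89.OneQ

/-- instances of length `n` -/
abbrev Ins (n : ℕ) := Fin n → Bool

/-- positions of an instance of length `n` -/
abbrev Pos (n : ℕ) := Fin (2 * n) → Bool

/-- witness strings at length `n` -/
abbrev Wit (n : ℕ) := Fin (2 * n) → Bool

/-- An oracle. `O n x u w = some b`: the string `w` certifies that the position `u` of the instance
`x` has value `b`. `O n x u w = none`: the string `w` certifies nothing about `(x, u)`. -/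
abbrev World := (n : ℕ) → Ins n → Pos n → Wit n → Option Bool

/-- every position of every instance has exactly one witness (and so exactly one value) -/
def Valid (O : World) : Prop :=
  ∀ (n : ℕ) (x : Ins n) (u : Pos n), ∃! w : Wit n, ∃ b : Bool, O n x u w = some b

/-- position `u` of the instance `x` has the certified value `b` -/
def HasValue (O : World) (n : ℕ) (x : Ins n) (u : Pos n) (b : Bool) : Prop :=
  ∃ w : Wit n, O n x u w = some b

/-- the language `L`: all positions of `x` have value `true` -/
def InL (O : World) (n : ℕ) (x : Ins n) : Prop := ∀ u, HasValue O n x u true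

/-- the tally set `T`: some instance of length `n` is in `L` -/
def InT (O : World) (n : ℕ) : Prop := ∃ x : Ins n, InL O n x

/-- every instance is in `L` or has at most `2^(n/2)` (of `2^(2n)`) positions with value `true` -/
def Promise (O : World) : Prop :=
  ∀ (n : ℕ) (x : Ins n), InL O n x ∨ {u : Pos n | HasValue O n x u true}.ncard ≤ 2 ^ (n / 2)

/-- Adaptive algorithms with output in `{0,1}` that ask the oracle for values `O n x u w`, of all
lengths `n`. -/
inductive Alg : Type
  | out (b : Bool) : Alg
  | look (n : ℕ) (x : Ins n) (u : Pos n) (w : Wit n) (next : Option Bool → Alg) : Alg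

/-- run an algorithm relative to an oracle -/
def Alg.run (O : World) : Alg → Bool
  | .out b => b
  | .look n x u w next => (next (O n x u w)).run O

/-- the algorithm asks at most `k` questions on every path -/
def Alg.AtMost : Alg → ℕ → Prop
  | .out _, _ => True
  | .look _ _ _ _ _, 0 => False
  | .look _ _ _ _ next, k + 1 => ∀ a, (next a).AtMost k

/-- A verifier: from the input `x` and the strings `y` and `z` it computes, in an arbitrary way, an
adaptive algorithm that asks the oracle questions. -/
structure Verifier where
  /-- length of the strings `y` and `z` for inputs of length `n` -/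
  len : ℕ → ℕ
  /-- bound for the number of questions -/
  cost : ℕ → ℕ
  /-- the computation of the verifier -/
  alg : (n : ℕ) → Ins n → (Fin (len n) → Bool) → (Fin (len n) → Bool) → Alg
  alg_cost : ∀ n x y z, (alg n x y z).AtMost (cost n)

/-- the value of the verifier -/
def Verifier.value (V : Verifier) (O : World) (n : ℕ) (x : Ins n) (y z : Fin (V.len n) → Bool) :
    Bool :=
  (V.alg n x y z).run O

/-- the `NO_2` condition for the set `S` of inputs of length `n` -/
def Verifier.NO2 (V : Verifier) (O : World) (n : ℕ) (S : Set (Ins n)) : Prop :=
  ∃ z₀, (∀ x ∈ S, ∃ y, ∀ z, V.value O n x y z = true) ∧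
    (∀ x ∉ S, ∀ y, V.value O n x y z₀ = false)

/-- the `S_2` condition at the input `1^n` for a tally set, `P` says that `1^n` is in the set -/
def Verifier.S2 (V : Verifier) (O : World) (n : ℕ) (P : Prop) : Prop :=
  (P → ∃ y, ∀ z, V.value O n (fun _ => true) y z = true) ∧
    (¬ P → ∃ z, ∀ y, V.value O n (fun _ => true) y z = false)

/-- `L` at length `n` by one question `(x, z) ∈ A?`: with `A` the set of the `(x, u)` of value
`true`, for `x` in `L` the answer is yes for all `z`, and one `z` gives the answer no for all `x`
outside `L`. -/
def AskXZ (O : World) (n : ℕ) : Prop :=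
  ∃ z₀ : Pos n, (∀ x, InL O n x → ∀ z, HasValue O n x z true) ∧
    (∀ x, ¬ InL O n x → HasValue O n x z₀ false)

/-- `T` at length `n` by one question `(y, z) ∈ A?` of two provers -/
def AskYZ (O : World) (n : ℕ) : Prop :=
  (InT O n → ∃ y : Ins n, ∀ z, HasValue O n y z true) ∧
    (¬ InT O n → ∃ z : Pos n, ∀ y, HasValue O n y z false)

/-- the `YO_2` condition for the set `S` of inputs of length `n` -/
def Verifier.YO2 (V : Verifier) (O : World) (n : ℕ) (S : Set (Ins n)) : Prop :=
  ∃ y₀, (∀ x ∈ S, ∀ z, V.value O n x y₀ z = true) ∧
    (∀ x ∉ S, ∃ z, ∀ y, V.value O n x y z = false)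

/-- languages -/
abbrev Lang := (k : ℕ) → Set (Ins k)

/-- Adaptive algorithms with output of type `α` that ask the oracle for values (`look`) and ask
membership questions `q ∈ B?` for a language `B` (`ask`). -/
inductive Ask (α : Type) : Type
  | out (a : α) : Ask α
  | look (k : ℕ) (x : Ins k) (u : Pos k) (w : Wit k) (next : Option Bool → Ask α) : Ask α
  | ask (k : ℕ) (q : Ins k) (next : Bool → Ask α) : Ask α

open Classical in
/-- run such an algorithm -/
noncomputable def Ask.run {α : Type} (O : World) (B : Lang) : Ask α → α
  | .out a => a
  | .look k x u w next => (next (O k x u w)).run O B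
  | .ask k q next => (next (decide (q ∈ B k))).run O B

/-- at most the given number of questions on every path, the membership questions having length
at most `p` -/
def Ask.AtMost {α : Type} (p : ℕ) : Ask α → ℕ → Prop
  | .out _, _ => True
  | .look _ _ _ _ _, 0 => False
  | .look _ _ _ _ next, c + 1 => ∀ a, (next a).AtMost p c
  | .ask _ _ _, 0 => False
  | .ask k _ next, c + 1 => k ≤ p ∧ ∀ a, (next a).AtMost p c

/-- Verifiers with the oracle `O` and a language `B` whose questions to `B` depend only on `(x, y)`
(in the first part) or only on `z` (in the second part); in the third part only `O` is asked,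
depending on everything. -/
structure SplitVerifier where
  /-- length of the strings `y` and `z` for inputs of length `n` -/
  len : ℕ → ℕ
  /-- bound for the number of questions of each part -/
  cost : ℕ → ℕ
  /-- bound for the lengths of the questions to `B` -/
  size : ℕ → ℕ
  /-- results of the first part -/
  Fst : Type
  /-- results of the second part -/
  Snd : Type
  /-- the first part sees `x` and `y` only -/
  first : (n : ℕ) → Ins n → (Fin (len n) → Bool) → Ask Fst
  /-- the second part sees `z` only -/
  second : (n : ℕ) → (Fin (len n) → Bool) → Ask Snd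
  /-- the third part sees everything but asks only `O` -/
  third : (n : ℕ) → Ins n → (Fin (len n) → Bool) → (Fin (len n) → Bool) → Fst → Snd → Alg
  first_cost : ∀ n x y, (first n x y).AtMost (size n) (cost n)
  second_cost : ∀ n z, (second n z).AtMost (size n) (cost n)
  third_cost : ∀ n x y z a b, (third n x y z a b).AtMost (cost n)

/-- the value of such a verifier -/
noncomputable def SplitVerifier.value (U : SplitVerifier) (O : World) (B : Lang) (n : ℕ)
    (x : Ins n) (y z : Fin (U.len n) → Bool) : Bool :=
  (U.third n x y z ((U.first n x y).run O B) ((U.second n z).run O B)).run O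

/-- the `NO_2` condition for the set `S` of inputs of length `n` -/
def SplitVerifier.NO2 (U : SplitVerifier) (O : World) (B : Lang) (n : ℕ) (S : Set (Ins n)) :
    Prop :=
  ∃ z₀, (∀ x ∈ S, ∃ y, ∀ z, U.value O B n x y z = true) ∧
    (∀ x ∉ S, ∀ y, U.value O B n x y z₀ = false)

end Pool.Agent.H.MP_7934a7_lc.h89.OneQ
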