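import Mathlib
import Pool.Agent.H.MP_7934a7_lc.h89.Core
import Pool.Agent.H.MP_7934a7_lc.h89.Defs

/-!
The oracle for a sequence of verifiers.
-/

namespace Pool.Agent.H.MP_7934a7_lc.h89.OneQ

open Finset

/-! ### Counting -/

/-- positions with value `b` in one row -/
noncomputable def valSet {n : ℕ} (g : Pos n → Wit n → Option Bool) (b : Bool) : Finset (Pos n) :=
  by classical exact univ.filter (fun u => ∃ w, g u w = some b)

lemma ncard_eq (O : World) (n : ℕ) (x : Ins n) (b : Bool) :
    {u : Pos n | HasValue O n x u b}.ncard = (valSet (O n x) b).card := by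
  classical
  rw [← Set.ncard_coe_finset]
  congr 1
  ext u
  simp [valSet, HasValue]

lemma mem_valSet {O : World} {n : ℕ} {x : Ins n} {u : Pos n} {b : Bool} :
    u ∈ valSet (O n x) b ↔ HasValue O n x u b := by
  classical
  simp only [valSet, mem_filter, mem_univ, true_and]
  exact Iff.rfl

lemma hasValue_or {O : World} (hO : Valid O) (n : ℕ) (x : Ins n) (u : Pos n) :
    HasValue O n x u true ∨ HasValue O n x u false := by
  obtain ⟨w, ⟨b, hb⟩, -⟩ := hO n x u
  cases b
  · exact Or.inr ⟨w, hb⟩
  · exact Or.inl ⟨w, hb⟩

lemma not_both {O : World} (hO : Valid O) (n : ℕ) (x : Ins n) (u : Pos n) :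
    ¬ (HasValue O n x u true ∧ HasValue O n x u false) := by
  rintro ⟨⟨w, hw⟩, ⟨w', hw'⟩⟩
  have := (hO n x u).unique ⟨true, hw⟩ ⟨false, hw'⟩
  subst this
  rw [hw] at hw'
  simp at hw'

/-- one position refutes all instances outside `L` -/
lemma exists_universal {O : World} (hO : Valid O) (hP : Promise O) (n : ℕ) :
    ∃ z₀ : Pos n, ∀ x, ¬ InL O n x → HasValue O n x z₀ false := by
  classical
  rcases Nat.eq_zero_or_pos n with rfl | hn
  · refine ⟨fun _ => false, fun x hx => ?_⟩
    unfold InL at hx
    push Not at hx
    obtain ⟨u, hu⟩ := hx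
    have : u = fun _ => false := by
      funext i
      exact absurd i.2 (by omega)
    subst this
    rcases hasValue_or hO 0 x (fun _ => false) with h | h
    · exact absurd h hu
    · exact h
  · by_contra hcon
    push Not at hcon
    have h1 : (univ : Finset (Pos n)) ⊆
        ((univ : Finset (Ins n)).filter (fun x => ¬ InL O n x)).biUnion
          (fun x => valSet (O n x) true) := by
      intro u _
      obtain ⟨x, hx, hu⟩ := hcon u
      simp only [mem_biUnion, mem_filter, mem_univ, true_and]
      refine ⟨x, hx, mem_valSet.mpr ?_⟩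
      rcases hasValue_or hO n x u with h | h
      · exact h
      · exact absurd h hu
    have h2 := card_le_card h1
    have h3 : (((univ : Finset (Ins n)).filter (fun x => ¬ InL O n x)).biUnion
          (fun x => valSet (O n x) true)).card ≤ 2 ^ n * 2 ^ (n / 2) := by
      refine le_trans card_biUnion_le ?_
      calc _ ≤ ∑ _x ∈ (univ : Finset (Ins n)).filter (fun x => ¬ InL O n x), 2 ^ (n / 2) := by
            refine sum_le_sum (fun x hx => ?_)
            rw [mem_filter] at hx
            rcases hP n x with h | h
            · exact absurd h hx.2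
            · rw [ncard_eq] at h
              exact h
        _ = ((univ : Finset (Ins n)).filter (fun x => ¬ InL O n x)).card * 2 ^ (n / 2) := by simp
        _ ≤ 2 ^ n * 2 ^ (n / 2) := by
            refine Nat.mul_le_mul_right _ ?_
            refine le_trans (card_filter_le _ _) ?_
            simp
    have h4 : (univ : Finset (Pos n)).card = 2 ^ (2 * n) := by simp
    rw [h4] at h2
    have h5 : 2 ^ n * 2 ^ (n / 2) < 2 ^ (2 * n) := by
      rw [← pow_add]
      exact Nat.pow_lt_pow_right (by norm_num) (by omega)
    omega

lemma askXZ {O : World} (hO : Valid O) (hP : Promise O) (n : ℕ) : AskXZ O n := by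
  obtain ⟨z₀, hz⟩ := exists_universal hO hP n
  exact ⟨z₀, fun x hx z => hx z, hz⟩

lemma askYZ {O : World} (hO : Valid O) (hP : Promise O) (n : ℕ) : AskYZ O n := by
  refine ⟨fun ⟨x, hx⟩ => ⟨x, hx⟩, fun h => ?_⟩
  obtain ⟨z₀, hz⟩ := exists_universal hO hP n
  exact ⟨z₀, fun y => hz y (fun hy => h ⟨y, hy⟩)⟩

/-! ### Algorithms at one length are decision trees -/

open Pool.Agent.H.MP_7934a7_lc.helper50 (Tree)

/-- the part of the algorithm that asks at length `n`, the oracle being fixed at other lengths -/
def Alg.toTree (O : World) (n : ℕ) : Alg → Tree (Ins n × Pos n) (Wit n)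
  | .out b => .out b
  | .look k x u w next =>
    if h : k = n then .ask (h ▸ x, h ▸ u) (h ▸ w) (fun a => (next a).toTree O n)
    else (next (O k x u w)).toTree O n

/-- the oracle at length `n` with witnesses `l` and values `v` -/
def world {n : ℕ} (l : Ins n × Pos n → Wit n) (v : Ins n × Pos n → Bool) :
    Ins n → Pos n → Wit n → Option Bool :=
  fun x u w => if w = l (x, u) then some (v (x, u)) else none

lemma Alg.run_toTree (O : World) (n : ℕ) (l : Ins n × Pos n → Wit n) (v : Ins n × Pos n → Bool)
    (T : Alg) : T.run (Function.update O n (world l v)) = (T.toTree O n).run l v := by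
  induction T with
  | out b => simp [Alg.run, Alg.toTree, Tree.run]
  | look k x u w next ih =>
    by_cases hk : k = n
    · subst hk
      simp only [Alg.run, Alg.toTree, dif_pos, Function.update_self, Tree.run]
      rw [ih]
      rfl
    · simp only [Alg.run, Alg.toTree, dif_neg hk, Function.update_of_ne hk]
      exact ih _

lemma tree_succ {P W : Type*} (T : Tree P W) : ∀ k, T.AtMost k → T.AtMost (k + 1) := by
  induction T with
  | out b => intro k _; simp [Tree.AtMost]
  | ask p w next ih =>
    intro k hk
    cases k with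
    | zero => exact absurd hk (by simp [Tree.AtMost])
    | succ k =>
      have hk' : ∀ a, (next a).AtMost k := by simpa [Tree.AtMost] using hk
      have : ∀ a, (next a).AtMost (k + 1) := fun a => ih a k (hk' a)
      simpa [Tree.AtMost] using this

lemma Alg.atMost_toTree (O : World) (n : ℕ) (T : Alg) :
    ∀ k, T.AtMost k → (T.toTree O n).AtMost k := by
  induction T with
  | out b => intro k _; simp [Alg.toTree, Tree.AtMost]
  | look j x u w next ih =>
    intro k hk
    cases k with
    | zero => exact absurd hk (by simp [Alg.AtMost])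
    | succ k =>
      have hk' : ∀ a, (next a).AtMost k := by simpa [Alg.AtMost] using hk
      by_cases hj : j = n
      · simp only [Alg.toTree, dif_pos hj, Tree.AtMost]
        exact fun a => ih a k (hk' a)
      · simp only [Alg.toTree, dif_neg hj]
        exact tree_succ _ _ (ih _ k (hk' _))

/-- largest length of a question -/
def Alg.maxLen : Alg → ℕ
  | .out _ => 0
  | .look k _ _ _ next => max k (Finset.univ.sup (fun a => (next a).maxLen))

lemma Alg.run_congr (O O' : World) (T : Alg) (h : ∀ k ≤ T.maxLen, O k = O' k) :
    T.run O = T.run O' := by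
  induction T with
  | out r => rfl
  | look k x u w next ih =>
    simp only [Alg.run]
    have h1 : O k = O' k := h k (le_max_left _ _)
    rw [h1]
    refine ih _ (fun j hj => h j (le_trans hj ?_))
    exact le_trans (Finset.le_sup (f := fun a => (next a).maxLen) (mem_univ (O' k x u w)))
      (le_max_right _ _)

/-! ### One stage -/

lemma small_len {n : ℕ} (hn : 96 ≤ n) : n ≤ 2 ^ (n / 8) := by
  have key : ∀ q : ℕ, 12 ≤ q → 8 * q + 7 ≤ 2 ^ q := by
    intro q hq
    induction q, hq using Nat.le_induction with
    | base => norm_num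
    | succ q hq ih => rw [pow_succ]; omega
  have h1 := key (n / 8) (by omega)
  omega

lemma bound_one {L C n : ℕ} (hn : 96 ≤ n) (h : L + C ≤ 2 ^ (n / 8)) :
    2 ^ 62 * (8 * (n + L + 1) + 1) * (C + 1) ≤ 2 ^ n := by
  have h0 := small_len hn
  set q := n / 8 with hq
  have hQ : 1 ≤ 2 ^ q := Nat.one_le_two_pow
  have h1 : 8 * (n + L + 1) + 1 ≤ 32 * 2 ^ q := by omega
  have h2 : C + 1 ≤ 2 * 2 ^ q := by omega
  calc 2 ^ 62 * (8 * (n + L + 1) + 1) * (C + 1)
      ≤ 2 ^ 62 * (32 * 2 ^ q) * (2 * 2 ^ q) :=
        Nat.mul_le_mul (Nat.mul_le_mul_left _ h1) h2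
    _ = 2 ^ (68 + q + q) := by rw [pow_add, pow_add]; ring
    _ ≤ 2 ^ n := Nat.pow_le_pow_right (by norm_num) (by omega)

lemma bound_two {L C n : ℕ} (hn : 96 ≤ n) (h : L + C ≤ 2 ^ (n / 8)) :
    2 ^ (8 * (n + L + 1) * (25 * (n + L + 1) + 2)) < (2 ^ n) ^ (2 ^ (n / 2) + 1) := by
  have h0 := small_len hn
  rw [← pow_mul]
  refine Nat.pow_lt_pow_right (by norm_num) ?_
  set q := n / 8 with hq
  have hQ : 1 ≤ 2 ^ q := Nat.one_le_two_pow
  have h1 : 8 * (n + L + 1) ≤ 24 * 2 ^ q := by omega
  have h2 : 25 * (n + L + 1) + 2 ≤ 77 * 2 ^ q := by omega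
  calc 8 * (n + L + 1) * (25 * (n + L + 1) + 2)
      ≤ (24 * 2 ^ q) * (77 * 2 ^ q) := Nat.mul_le_mul h1 h2
    _ = 1848 * 2 ^ (q + q) := by rw [pow_add]; ring
    _ ≤ 2 ^ 11 * 2 ^ (q + q) := Nat.mul_le_mul_right _ (by norm_num)
    _ = 2 ^ (11 + (q + q)) := by rw [← pow_add]
    _ ≤ 2 ^ (n / 2) := Nat.pow_le_pow_right (by norm_num) (by omega)
    _ < 2 ^ (n / 2) + 1 := Nat.lt_succ_self _
    _ ≤ n * (2 ^ (n / 2) + 1) := Nat.le_mul_of_pos_left _ (by omega)

/-- the two requirements on a verifier at one length -/
def Good (V : Verifier) (O : World) (n : ℕ) (kind : Bool) : Prop :=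
  if kind then V.NO2 O n {x | InL O n x} else V.S2 O n (InT O n)

lemma valSet_world {n : ℕ} (l : Ins n × Pos n → Wit n) (v : Ins n × Pos n → Bool) (x : Ins n)
    (b : Bool) : valSet (world l v x) b = univ.filter (fun u => v (x, u) = b) := by
  classical
  ext u
  simp only [valSet, world, mem_filter, mem_univ, true_and]
  constructor
  · rintro ⟨w, hw⟩
    by_cases h : w = l (x, u)
    · simpa [h] using hw
    · simp [h] at hw
  · intro h
    exact ⟨l (x, u), by simp [h]⟩

lemma hasValue_world (O : World) {n : ℕ} (l : Ins n × Pos n → Wit n) (v : Ins n × Pos n → Bool)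
    (x : Ins n) (u : Pos n) (b : Bool) :
    HasValue (Function.update O n (world l v)) n x u b ↔ v (x, u) = b := by
  classical
  rw [← mem_valSet, Function.update_self, valSet_world]
  simp

lemma stage (V : Verifier) (kind : Bool) (O : World) (hO : Valid O) (hP : Promise O) {n : ℕ}
    (hn : 96 ≤ n) (hV : V.len n + V.cost n ≤ 2 ^ (n / 8)) :
    ∃ G : Ins n → Pos n → Wit n → Option Bool, Valid (Function.update O n G) ∧
      Promise (Function.update O n G) ∧ ¬ Good V (Function.update O n G) n kind := by
  classical
  by_contra hcon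
  push Not at hcon
  have hval : ∀ (l : Ins n × Pos n → Wit n) (v : Ins n × Pos n → Bool),
      Valid (Function.update O n (world l v)) := by
    intro l v k
    by_cases hk : k = n
    · subst hk
      rw [Function.update_self]
      intro x u
      refine ⟨l (x, u), ⟨v (x, u), by simp [world]⟩, ?_⟩
      rintro w ⟨b, hb⟩
      by_contra hw
      simp [world, hw] at hb
    · rw [Function.update_of_ne hk]
      exact hO k
  have hprom : ∀ (l : Ins n × Pos n → Wit n) (v : Ins n × Pos n → Bool),
      (∀ x, (∀ u, v (x, u) = true) ∨ (univ.filter (fun u => v (x, u) = true)).card ≤ 2 ^ (n / 2)) →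
      Promise (Function.update O n (world l v)) := by
    intro l v hv k x
    by_cases hk : k = n
    · subst hk
      rcases hv x with h | h
      · left
        intro u
        rw [hasValue_world]
        exact h u
      · right
        rw [ncard_eq, Function.update_self, valSet_world]
        exact h
    · rcases hP k x with h | h
      · left
        intro u
        have := h u
        unfold HasValue at this ⊢
        rw [Function.update_of_ne hk]
        exact this
      · right
        rw [ncard_eq] at h ⊢
        rw [Function.update_of_ne hk]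
        exact h
  have hn2 : 2 ^ (n / 2) < 2 ^ n := Nat.pow_lt_pow_right (by norm_num) (by omega)
  have hn3 : 2 ^ (n / 2) < 2 ^ (2 * n) := Nat.pow_lt_pow_right (by norm_num) (by omega)
  -- the two worlds that agree with a small planting
  have hno : ∀ (c : Pool.Agent.H.MP_7934a7_lc.helper50.PW (Ins n × Pos n) (Wit n)),
      (Pool.Agent.H.MP_7934a7_lc.helper50.dom c).card ≤ 2 ^ (n / 2) →
      ∃ v : Ins n × Pos n → Bool, Pool.Agent.H.MP_7934a7_lc.helper50.Agree c v ∧
        (∀ x, (univ.filter (fun u => v (x, u) = true)).card ≤ 2 ^ (n / 2)) ∧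
        ∀ x, ∃ u, v (x, u) = false := by
    intro c hc
    have hcard : ∀ x, (univ.filter (fun u => ((c (x, u)).map Prod.snd).getD false = true)).card
        ≤ 2 ^ (n / 2) := by
      intro x
      refine le_trans ?_ hc
      refine card_le_card_of_injOn (fun u => (x, u)) ?_ (fun a _ b _ h => (Prod.ext_iff.mp h).2)
      intro u hu
      simp only [coe_filter, mem_univ, true_and, Set.mem_ofPred_eq] at hu
      cases h : c (x, u) with
      | none => rw [h] at hu; simp at hu
      | some a =>
        exact Pool.Agent.H.MP_7934a7_lc.helper50.mem_dom.mpr ⟨a, h⟩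
    refine ⟨fun p => ((c p).map Prod.snd).getD false, ?_, hcard, ?_⟩
    · intro p w b hp
      simp [hp]
    · intro x
      by_contra hall
      push Not at hall
      have h1 : univ.filter (fun u => ((c (x, u)).map Prod.snd).getD false = true)
          = (univ : Finset (Pos n)) := by
        ext u
        simp only [mem_filter, mem_univ, true_and, iff_true]
        exact (Bool.not_eq_false _).mp (hall u)
      have h2 := hcard x
      rw [h1] at h2
      simp only [card_univ, Fintype.card_fun, Fintype.card_bool, Fintype.card_fin] at h2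
      omega
  have hyes : ∀ (c : Pool.Agent.H.MP_7934a7_lc.helper50.PW (Ins n × Pos n) (Wit n)),
      (Pool.Agent.H.MP_7934a7_lc.helper50.dom c).card ≤ 2 ^ (n / 2) →
      ∃ v : Ins n × Pos n → Bool, Pool.Agent.H.MP_7934a7_lc.helper50.Agree c v ∧
        (∀ x, (∀ u, v (x, u) = true) ∨
          (univ.filter (fun u => v (x, u) = true)).card ≤ 2 ^ (n / 2)) ∧
        ∃ x, ∀ u, v (x, u) = true := by
    intro c hc
    -- a row without planted marks
    obtain ⟨x₀, hx₀⟩ : ∃ x₀ : Ins n,
        x₀ ∉ (Pool.Agent.H.MP_7934a7_lc.helper50.dom c).image Prod.fst := by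
      by_contra hall
      push Not at hall
      have h1 : (univ : Finset (Ins n)) ⊆
          (Pool.Agent.H.MP_7934a7_lc.helper50.dom c).image Prod.fst := fun x _ => hall x
      have h2 := (card_le_card h1).trans (card_image_le.trans hc)
      simp only [card_univ, Fintype.card_fun, Fintype.card_bool, Fintype.card_fin] at h2
      omega
    have hfree : ∀ u, c (x₀, u) = none := by
      intro u
      cases h : c (x₀, u) with
      | none => rfl
      | some a =>
        exact absurd (mem_image_of_mem Prod.fst
          (Pool.Agent.H.MP_7934a7_lc.helper50.mem_dom.mpr ⟨a, h⟩)) hx₀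
    refine ⟨fun p => if p.1 = x₀ then true else ((c p).map Prod.snd).getD false, ?_, ?_,
      x₀, fun u => by simp⟩
    · rintro ⟨x, u⟩ w b hp
      by_cases hx : x = x₀
      · subst hx
        rw [hfree u] at hp
        exact absurd hp (by simp)
      · simp [hx, hp]
    · intro x
      by_cases hx : x = x₀
      · left
        intro u
        simp [hx]
      · right
        refine le_trans ?_ hc
        refine card_le_card_of_injOn (fun u => (x, u)) ?_ (fun a _ b _ h => (Prod.ext_iff.mp h).2)
        intro u hu
        simp only [coe_filter, mem_univ, true_and, Set.mem_ofPred_eq, if_neg hx] at hu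
        cases h : c (x, u) with
        | none => rw [h] at hu; simp at hu
        | some a =>
          exact Pool.Agent.H.MP_7934a7_lc.helper50.mem_dom.mpr ⟨a, h⟩
  have hW : Fintype.card (Wit n) = (2 ^ n) ^ 2 := by
    simp only [Fintype.card_fun, Fintype.card_bool, Fintype.card_fin]
    rw [← pow_mul]; congr 1; ring
  cases kind with
  | true =>
    refine Pool.Agent.H.MP_7934a7_lc.h89.core
      (S := Ins n × (Fin (V.len n) → Bool)) (P := Ins n × Pos n) (W := Wit n)
      (fun a a' => (V.alg n a.1 a.2 a'.2).toTree O n) (b := 2 ^ n) (d := V.cost n)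
      (m := n + V.len n + 1) (r := 2 ^ (n / 2)) (by omega) ?_ ?_ hW (bound_one hn hV)
      (bound_two hn hV) ?_
    · simp only [Fintype.card_prod, Fintype.card_fun, Fintype.card_bool, Fintype.card_fin]
      rw [← pow_add]
      exact Nat.pow_le_pow_right (by norm_num) (by omega)
    · intro a a'
      exact Alg.atMost_toTree O n _ _ (V.alg_cost n _ _ _)
    · intro s c l hl hc
      cases s
      · obtain ⟨v, hv, h1, h2⟩ := hno c hc
        have hgood := hcon _ (hval l v) (hprom l v (fun x => Or.inr (h1 x)))
        simp only [Good, if_true] at hgood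
        obtain ⟨z₀, -, hz⟩ := hgood
        refine ⟨v, hv, (fun _ => false, z₀), fun b => ?_⟩
        have hx : b.1 ∉ {x | InL (Function.update O n (world l v)) n x} := by
          intro hx
          obtain ⟨u, hu⟩ := h2 b.1
          have h3 : HasValue (Function.update O n (world l v)) n b.1 u true := hx u
          rw [hasValue_world] at h3
          rw [hu] at h3
          simp at h3
        have h4 := hz b.1 hx b.2
        unfold Verifier.value at h4
        rw [Alg.run_toTree] at h4
        simpa [Pool.Agent.H.MP_7934a7_lc.helper50.side] using h4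
      · obtain ⟨v, hv, h1, x₀, hx₀⟩ := hyes c hc
        have hgood := hcon _ (hval l v) (hprom l v h1)
        simp only [Good, if_true] at hgood
        obtain ⟨z₀, hy, -⟩ := hgood
        have hx : x₀ ∈ {x | InL (Function.update O n (world l v)) n x} := by
          intro u
          rw [hasValue_world]
          exact hx₀ u
        obtain ⟨y, hy'⟩ := hy x₀ hx
        refine ⟨v, hv, (x₀, y), fun b => ?_⟩
        have h4 := hy' b.2
        unfold Verifier.value at h4
        rw [Alg.run_toTree] at h4
        simpa [Pool.Agent.H.MP_7934a7_lc.helper50.side] using h4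
  | false =>
    refine Pool.Agent.H.MP_7934a7_lc.h89.core
      (S := Fin (V.len n) → Bool) (P := Ins n × Pos n) (W := Wit n)
      (fun y z => (V.alg n (fun _ => true) y z).toTree O n) (b := 2 ^ n) (d := V.cost n)
      (m := n + V.len n + 1) (r := 2 ^ (n / 2)) (by omega) ?_ ?_ hW (bound_one hn hV)
      (bound_two hn hV) ?_
    · simp only [Fintype.card_fun, Fintype.card_bool, Fintype.card_fin]
      exact Nat.pow_le_pow_right (by norm_num) (by omega)
    · intro a a'
      exact Alg.atMost_toTree O n _ _ (V.alg_cost n _ _ _)
    · intro s c l hl hc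
      cases s
      · obtain ⟨v, hv, h1, h2⟩ := hno c hc
        have hgood := hcon _ (hval l v) (hprom l v (fun x => Or.inr (h1 x)))
        simp only [Good] at hgood
        have hx : ¬ InT (Function.update O n (world l v)) n := by
          rintro ⟨x, hx⟩
          obtain ⟨u, hu⟩ := h2 x
          have h3 : HasValue (Function.update O n (world l v)) n x u true := hx u
          rw [hasValue_world] at h3
          rw [hu] at h3
          simp at h3
        obtain ⟨z, hz⟩ := hgood.2 hx
        refine ⟨v, hv, z, fun y => ?_⟩
        have h4 := hz y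
        unfold Verifier.value at h4
        rw [Alg.run_toTree] at h4
        simpa [Pool.Agent.H.MP_7934a7_lc.helper50.side] using h4
      · obtain ⟨v, hv, h1, x₀, hx₀⟩ := hyes c hc
        have hgood := hcon _ (hval l v) (hprom l v h1)
        simp only [Good] at hgood
        have hx : InT (Function.update O n (world l v)) n := by
          refine ⟨x₀, fun u => ?_⟩
          rw [hasValue_world]
          exact hx₀ u
        obtain ⟨y, hy⟩ := hgood.1 hx
        refine ⟨v, hv, y, fun z => ?_⟩
        have h4 := hy z
        unfold Verifier.value at h4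
        rw [Alg.run_toTree] at h4
        simpa [Pool.Agent.H.MP_7934a7_lc.helper50.side] using h4

/-! ### The diagonal construction -/

/-- stages: an admissible oracle and the length below which it is final -/
def Stage : Type := {p : World × ℕ // Valid p.1 ∧ Promise p.1}

lemma next_stage (V : Verifier) (kind : Bool)
    (hV : ∀ N, ∃ n ≥ N, V.len n + V.cost n ≤ 2 ^ (n / 8)) (s : Stage) :
    ∃ s' : Stage, s.1.2 < s'.1.2 ∧ (∀ k < s.1.2, s'.1.1 k = s.1.1 k) ∧
      ∃ n ≥ s.1.2, ∀ O' : World, (∀ k < s'.1.2, O' k = s'.1.1 k) → ¬ Good V O' n kind := by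
  classical
  obtain ⟨⟨O, h⟩, hO, hP⟩ := s
  obtain ⟨n, hn, hsmall⟩ := hV (max h 96)
  have hn1 : h ≤ n := le_trans (le_max_left _ _) hn
  have hn2 : 96 ≤ n := le_trans (le_max_right _ _) hn
  obtain ⟨G, h1, h2, h3⟩ := stage V kind O hO hP hn2 hsmall
  let H : ℕ := max n (univ.sup (fun x => univ.sup (fun y => univ.sup
    (fun z => (V.alg n x y z).maxLen)))) + 1
  refine ⟨⟨(Function.update O n G, H), h1, h2⟩, ?_, ?_, n, hn1, ?_⟩
  · have : n ≤ max n (univ.sup (fun x => univ.sup (fun y => univ.sup
      (fun z => (V.alg n x y z).maxLen)))) := le_max_left _ _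
    simp only [H]
    omega
  · intro k hk
    simp only at hk ⊢
    exact Function.update_of_ne (by omega) _ _
  · intro O' hO' hcor
    apply h3
    have hn3 : O' n = Function.update O n G n := hO' n (by
      simp only [H]
      exact Nat.lt_succ_of_le (le_max_left _ _))
    have hL : ∀ x, InL O' n x ↔ InL (Function.update O n G) n x := by
      intro x
      unfold InL HasValue
      rw [hn3]
    have hT : InT O' n ↔ InT (Function.update O n G) n := by
      unfold InT
      simp only [hL]
    have hset : {x | InL O' n x} = {x | InL (Function.update O n G) n x} := by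
      ext x
      exact hL x
    have hval : ∀ x y z, V.value O' n x y z = V.value (Function.update O n G) n x y z := by
      intro x y z
      unfold Verifier.value
      refine Alg.run_congr _ _ _ (fun k hk => hO' k ?_)
      simp only [H]
      refine Nat.lt_succ_of_le (le_trans hk ?_)
      refine le_trans ?_ (le_max_right _ _)
      refine le_trans ?_ (Finset.le_sup (f := fun x => univ.sup (fun y => univ.sup
        (fun z => (V.alg n x y z).maxLen))) (mem_univ x))
      refine le_trans ?_ (Finset.le_sup
        (f := fun y => univ.sup (fun z => (V.alg n x y z).maxLen)) (mem_univ y))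
      exact Finset.le_sup (f := fun z => (V.alg n x y z).maxLen) (mem_univ z)
    unfold Good at hcor ⊢
    cases kind with
    | true =>
      simp only [if_true] at hcor ⊢
      rw [hset] at hcor
      unfold Verifier.NO2 at hcor ⊢
      simp only [hval] at hcor
      exact hcor
    | false =>
      simp only [Bool.false_eq_true, if_false] at hcor ⊢
      unfold Verifier.S2 at hcor ⊢
      rw [hT] at hcor
      simp only [hval] at hcor
      exact hcor

/-- an admissible oracle -/
lemma exists_base : ∃ O : World, Valid O ∧ Promise O := by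
  classical
  refine ⟨fun n x u w => if w = (fun _ => false) then some true else none, ?_, ?_⟩
  · intro n x u
    refine ⟨fun _ => false, ⟨true, by simp⟩, ?_⟩
    rintro w ⟨b, hb⟩
    by_contra hw
    simp [hw] at hb
  · intro n x
    left
    intro u
    exact ⟨fun _ => false, by simp⟩

/-- the oracle for a sequence of verifiers with the kind of the requirement -/
theorem diagonal (V : ℕ → Verifier × Bool)
    (hV : ∀ i N, ∃ n ≥ N, (V i).1.len n + (V i).1.cost n ≤ 2 ^ (n / 8)) :
    ∃ O : World, Valid O ∧ Promise O ∧ ∀ i N, ∃ n ≥ N, ¬ Good (V i).1 O n (V i).2 := by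
  classical
  obtain ⟨O₀, hO₀, hP₀⟩ := exists_base
  let nxt : ℕ → Stage → Stage := fun j s =>
    (next_stage (V (Nat.unpair j).1).1 (V (Nat.unpair j).1).2 (hV _) s).choose
  have hnxt := fun (j : ℕ) (s : Stage) =>
    (next_stage (V (Nat.unpair j).1).1 (V (Nat.unpair j).1).2 (hV _) s).choose_spec
  let S : ℕ → Stage := fun j => Nat.rec ⟨(O₀, 0), hO₀, hP₀⟩ (fun j s => nxt j s) j
  have hS : ∀ j, S (j + 1) = nxt j (S j) := fun j => rfl
  have hlt : ∀ j, (S j).1.2 < (S (j + 1)).1.2 := by
    intro j
    rw [hS]
    exact (hnxt j (S j)).1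
  have hge : ∀ j, j ≤ (S j).1.2 := by
    intro j
    induction j with
    | zero => exact Nat.zero_le _
    | succ j ih =>
      have := hlt j
      omega
  have hmono : ∀ i j, i ≤ j → (S i).1.2 ≤ (S j).1.2 := by
    intro i j hij
    induction j, hij using Nat.le_induction with
    | base => exact le_rfl
    | succ j _ ih => exact le_trans ih (hlt j).le
  have hagree : ∀ i j, i ≤ j → ∀ k < (S i).1.2, (S j).1.1 k = (S i).1.1 k := by
    intro i j hij
    induction j, hij using Nat.le_induction with
    | base => intro k _; rfl
    | succ j hj ih =>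
      intro k hk
      rw [hS]
      rw [← ih k hk]
      exact (hnxt j (S j)).2.1 k (lt_of_lt_of_le hk (hmono i j hj))
  let O : World := fun k => (S (k + 1)).1.1 k
  have hO : ∀ j, ∀ k < (S j).1.2, O k = (S j).1.1 k := by
    intro j k hk
    rcases le_total (k + 1) j with h | h
    · exact (hagree (k + 1) j h k (hge (k + 1))).symm
    · exact hagree j (k + 1) h k hk
  have hOv : Valid O := fun n => (S (n + 1)).2.1 n
  have hOp : Promise O := fun n => (S (n + 1)).2.2 n
  refine ⟨O, hOv, hOp, ?_⟩
  intro i N
  obtain ⟨n, hn, hbad⟩ := (hnxt (Nat.pair i N) (S (Nat.pair i N))).2.2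
  refine ⟨n, ?_, ?_⟩
  · have h1 : N ≤ Nat.pair i N := Nat.right_le_pair i N
    have h2 := hge (Nat.pair i N)
    omega
  · have h3 : (Nat.unpair (Nat.pair i N)).1 = i := by simp
    have h4 := hbad O (fun k hk => by
      have := hO (Nat.pair i N + 1) k (by rw [hS]; exact hk)
      rw [this, hS])
    rw [h3] at h4
    exact h4

end Pool.Agent.H.MP_7934a7_lc.h89.OneQ
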