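import Mathlib
import Pool.Agent.H.MP_7934a7_lc.h89.Defs

/-!
Questions that depend only on `(x, y)` or only on `z` are harmless.
-/

namespace Pool.Agent.H.MP_7934a7_lc.h89.OneQ

/-! ### Questions that depend only on `(x, y)` or only on `z` -/

/-- run the first algorithm and then, depending on its output, another one -/
def Alg.bind : Alg → (Bool → Alg) → Alg
  | .out b, f => f b
  | .look n x u w next, f => .look n x u w (fun a => (next a).bind f)

lemma Alg.run_bind (O : World) (T : Alg) (f : Bool → Alg) :
    (T.bind f).run O = (f (T.run O)).run O := by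
  induction T with
  | out b => rfl
  | look n x u w next ih => exact ih _

lemma Alg.atMost_mono (T : Alg) : ∀ k l, k ≤ l → T.AtMost k → T.AtMost l := by
  induction T with
  | out b => intro k l _ _; simp [Alg.AtMost]
  | look n x u w next ih =>
    intro k l hkl hk
    cases k with
    | zero => exact absurd hk (by simp [Alg.AtMost])
    | succ k =>
      cases l with
      | zero => omega
      | succ l =>
        have hk' : ∀ a, (next a).AtMost k := hk
        exact fun a => ih a k l (by omega) (hk' a)

lemma Alg.atMost_bind (T : Alg) (f : Bool → Alg) (d : ℕ) (hf : ∀ b, (f b).AtMost d) :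
    ∀ c, T.AtMost c → (T.bind f).AtMost (c + d) := by
  induction T with
  | out b => intro c _; exact Alg.atMost_mono _ d _ (by omega) (hf b)
  | look n x u w next ih =>
    intro c hc
    cases c with
    | zero => exact absurd hc (by simp [Alg.AtMost])
    | succ c =>
      have hc' : ∀ a, (next a).AtMost c := hc
      have e : c + 1 + d = (c + d) + 1 := by omega
      rw [e]
      exact fun a => ih a c (hc' a)

/-- Replace the membership questions by runs of the verifiers `V₁` (for a claimed `yes`) and `V₂`
(for a claimed `no`). The claims and the certificates `w` come from one prover, the universal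
strings `e₁`, `e₂` from the other one. -/
def Ask.sim {α : Type} (V₁ V₂ : Verifier) (w e₁ e₂ : ℕ → ℕ → Bool) (fail : Bool) (cont : α → Alg) :
    Ask α → ℕ → Alg
  | .out a, _ => cont a
  | .look k x u w' next, i =>
      .look k x u w' (fun r => (next r).sim V₁ V₂ w e₁ e₂ fail cont i)
  | .ask k q next, i =>
      if w i 0 = true then
        (V₁.alg k q (fun j => w i (1 + j)) (fun j => e₁ k j)).bind
          (fun b => if b = true then (next true).sim V₁ V₂ w e₁ e₂ fail cont (i + 1)
            else .out fail)
      else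
        (V₂.alg k q (fun j => e₂ k j) (fun j => w i (1 + j))).bind
          (fun b => if b = true then .out fail
            else (next false).sim V₁ V₂ w e₁ e₂ fail cont (i + 1))

lemma Ask.sim_sound {α : Type} {V₁ V₂ : Verifier} {O : World} {B : Lang} {p : ℕ}
    (w : ℕ → ℕ → Bool) {e₁ e₂ : ℕ → ℕ → Bool}
    (h₁ : ∀ k ≤ p, ∀ q ∉ B k, ∀ y, V₁.value O k q y (fun j => e₁ k j) = false)
    (h₂ : ∀ k ≤ p, ∀ q ∈ B k, ∀ z, V₂.value O k q (fun j => e₂ k j) z = true)
    (fail : Bool) (cont : α → Alg) (a : Ask α) : ∀ c i, a.AtMost p c →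
      (a.sim V₁ V₂ w e₁ e₂ fail cont i).run O = fail ∨
      (a.sim V₁ V₂ w e₁ e₂ fail cont i).run O = (cont (a.run O B)).run O := by
  classical
  induction a with
  | out a => intro c i _; right; rfl
  | look k x u w' next ih =>
    intro c i hc
    cases c with
    | zero => exact absurd hc (by simp [Ask.AtMost])
    | succ c =>
      have hc' : ∀ a, (next a).AtMost p c := hc
      simp only [Ask.sim, Alg.run, Ask.run]
      exact ih _ c i (hc' _)
  | ask k q next ih =>
    intro c i hc
    cases c with
    | zero => exact absurd hc (by simp [Ask.AtMost])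
    | succ c =>
      obtain ⟨hk, hc'⟩ := (show k ≤ p ∧ ∀ a, (next a).AtMost p c from hc)
      simp only [Ask.sim, Ask.run]
      by_cases hw : w i 0 = true
      · rw [if_pos hw, Alg.run_bind]
        by_cases hb : (V₁.alg k q (fun j => w i (1 + j)) (fun j => e₁ k j)).run O = true
        · rw [if_pos hb]
          have hq : q ∈ B k := by
            by_contra hq
            have h3 := h₁ k hk q hq (fun j => w i (1 + j))
            unfold Verifier.value at h3
            rw [hb] at h3
            exact absurd h3 (by simp)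
          rw [decide_eq_true hq]
          exact ih true c (i + 1) (hc' true)
        · rw [if_neg hb]
          left; rfl
      · rw [if_neg hw, Alg.run_bind]
        by_cases hb : (V₂.alg k q (fun j => e₂ k j) (fun j => w i (1 + j))).run O = true
        · rw [if_pos hb]
          left; rfl
        · rw [if_neg hb]
          have hq : q ∉ B k := by
            intro hq
            have h3 := h₂ k hk q hq (fun j => w i (1 + j))
            unfold Verifier.value at h3
            exact hb h3
          rw [decide_eq_false hq]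
          exact ih false c (i + 1) (hc' false)

lemma Ask.sim_complete {α : Type} {V₁ V₂ : Verifier} {O : World} {B : Lang} {p m : ℕ}
    (h₁ : ∀ k ≤ p, ∀ q ∈ B k, ∃ y, ∀ z, V₁.value O k q y z = true)
    (h₂ : ∀ k ≤ p, ∀ q ∉ B k, ∃ z, ∀ y, V₂.value O k q y z = false)
    (hm : ∀ k ≤ p, V₁.len k ≤ m ∧ V₂.len k ≤ m) (a : Ask α) :
    ∀ c i, a.AtMost p c → ∃ w : ℕ → ℕ → Bool, ∀ w' : ℕ → ℕ → Bool,
      (∀ j, i ≤ j → j < i + c → ∀ t < 1 + m, w' j t = w j t) →
        ∀ (e₁ e₂ : ℕ → ℕ → Bool) (fail : Bool) (cont : α → Alg),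
          (a.sim V₁ V₂ w' e₁ e₂ fail cont i).run O = (cont (a.run O B)).run O := by
  classical
  induction a with
  | out a => intro c i _; exact ⟨fun _ _ => false, fun _ _ _ _ _ _ => rfl⟩
  | look k x u w' next ih =>
    intro c i hc
    cases c with
    | zero => exact absurd hc (by simp [Ask.AtMost])
    | succ c =>
      have hc' : (next (O k x u w')).AtMost p c := hc _
      obtain ⟨w, hw⟩ := ih _ c i hc'
      refine ⟨w, fun w'' h e₁ e₂ fail cont => ?_⟩
      simp only [Ask.sim, Alg.run, Ask.run]
      exact hw w'' (fun j h1 h2 t ht => h j h1 (by omega) t ht) e₁ e₂ fail cont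
  | ask k q next ih =>
    intro c i hc
    cases c with
    | zero => exact absurd hc (by simp [Ask.AtMost])
    | succ c =>
      obtain ⟨hk, hc'⟩ := (show k ≤ p ∧ ∀ a, (next a).AtMost p c from hc)
      obtain ⟨hm1, hm2⟩ := hm k hk
      by_cases hq : q ∈ B k
      · obtain ⟨y, hy⟩ := h₁ k hk q hq
        obtain ⟨w, hw⟩ := ih true c (i + 1) (hc' true)
        let g : ℕ → ℕ → Bool := fun j t =>
          if j = i then (if t = 0 then true else
            (if h : t - 1 < V₁.len k then y ⟨t - 1, h⟩ else false)) else w j t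
        refine ⟨g, fun w'' h e₁ e₂ fail cont => ?_⟩
        have h0 : w'' i 0 = true := by
          rw [h i (le_refl _) (by omega) 0 (by omega)]
          simp [g]
        have h3 : (fun j : Fin (V₁.len k) => w'' i (1 + j)) = y := by
          funext j
          have hj := j.2
          rw [h i (le_refl _) (by omega) (1 + j) (by omega)]
          simp [g]
        simp only [Ask.sim, Ask.run]
        rw [if_pos h0, Alg.run_bind, h3]
        have h4 := hy (fun j => e₁ k j)
        unfold Verifier.value at h4
        rw [if_pos h4, decide_eq_true hq]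
        refine hw w'' (fun j h5 h6 t ht => ?_) e₁ e₂ fail cont
        have h7 : j ≠ i := by omega
        rw [h j (by omega) (by omega) t ht]
        simp [g, h7]
      · obtain ⟨z, hz⟩ := h₂ k hk q hq
        obtain ⟨w, hw⟩ := ih false c (i + 1) (hc' false)
        let g : ℕ → ℕ → Bool := fun j t =>
          if j = i then (if t = 0 then false else
            (if h : t - 1 < V₂.len k then z ⟨t - 1, h⟩ else false)) else w j t
        refine ⟨g, fun w'' h e₁ e₂ fail cont => ?_⟩
        have h0 : w'' i 0 ≠ true := by
          rw [h i (le_refl _) (by omega) 0 (by omega)]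
          simp [g]
        have h3 : (fun j : Fin (V₂.len k) => w'' i (1 + j)) = z := by
          funext j
          have hj := j.2
          rw [h i (le_refl _) (by omega) (1 + j) (by omega)]
          simp [g]
        simp only [Ask.sim, Ask.run]
        rw [if_neg h0, Alg.run_bind, h3]
        have h4 := hz (fun j => e₂ k j)
        unfold Verifier.value at h4
        rw [h4, if_neg (by simp), decide_eq_false hq]
        refine hw w'' (fun j h5 h6 t ht => ?_) e₁ e₂ fail cont
        have h7 : j ≠ i := by omega
        rw [h j (by omega) (by omega) t ht]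
        simp [g, h7]

lemma Ask.sim_cost {α : Type} {V₁ V₂ : Verifier} (w e₁ e₂ : ℕ → ℕ → Bool) (fail : Bool)
    (cont : α → Alg) (p r d : ℕ) (hr : ∀ k ≤ p, V₁.cost k ≤ r ∧ V₂.cost k ≤ r)
    (hd : ∀ a, (cont a).AtMost d) (a : Ask α) : ∀ c i, a.AtMost p c →
      (a.sim V₁ V₂ w e₁ e₂ fail cont i).AtMost (c * (r + 1) + d) := by
  induction a with
  | out a => intro c i _; exact Alg.atMost_mono _ d _ (by omega) (hd a)
  | look k x u w' next ih =>
    intro c i hc
    cases c with
    | zero => exact absurd hc (by simp [Ask.AtMost])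
    | succ c =>
      have hc' : ∀ a, (next a).AtMost p c := hc
      have h1 : ∀ a, ((next a).sim V₁ V₂ w e₁ e₂ fail cont i).AtMost (c * (r + 1) + d) :=
        fun a => ih a c i (hc' a)
      refine Alg.atMost_mono _ ((c * (r + 1) + d) + 1) _ (by nlinarith) ?_
      exact h1
  | ask k q next ih =>
    intro c i hc
    cases c with
    | zero => exact absurd hc (by simp [Ask.AtMost])
    | succ c =>
      obtain ⟨hk, hc'⟩ := (show k ≤ p ∧ ∀ a, (next a).AtMost p c from hc)
      obtain ⟨hr1, hr2⟩ := hr k hk
      simp only [Ask.sim]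
      have e : (c + 1) * (r + 1) + d = r + (1 + (c * (r + 1) + d)) := by ring
      rw [e]
      have h0 : (Alg.out fail).AtMost (1 + (c * (r + 1) + d)) := by simp [Alg.AtMost]
      split
      · refine Alg.atMost_bind _ _ _ (fun b => ?_) _
          (Alg.atMost_mono _ _ _ hr1 (V₁.alg_cost k q _ _))
        split
        · exact Alg.atMost_mono _ _ _ (by omega) (ih true c (i + 1) (hc' true))
        · exact h0
      · refine Alg.atMost_bind _ _ _ (fun b => ?_) _
          (Alg.atMost_mono _ _ _ hr2 (V₂.alg_cost k q _ _))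
        split
        · exact h0
        · exact Alg.atMost_mono _ _ _ (by omega) (ih false c (i + 1) (hc' false))

section code

variable {L C s : ℕ}

/-- the first `L` bits -/
def pre (y : Fin (L + C * s) → Bool) : Fin L → Bool := fun j => y ⟨j, by omega⟩

/-- the other bits as a table with `C` rows of length `s` -/
def wit (y : Fin (L + C * s) → Bool) : ℕ → ℕ → Bool := fun j t =>
  if h : L + (j * s + t) < L + C * s then y ⟨L + (j * s + t), h⟩ else false

lemma exists_code (y : Fin L → Bool) (w : ℕ → ℕ → Bool) :
    ∃ y' : Fin (L + C * s) → Bool, pre y' = y ∧ ∀ j < C, ∀ t < s, wit y' j t = w j t := by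
  refine ⟨fun j => if h : (j : ℕ) < L then y ⟨j, h⟩
    else w ((j - L) / s) ((j - L) % s), ?_, ?_⟩
  · funext j
    simp [pre]
  · intro j hj t ht
    have h1 : j * s + t < C * s := by
      calc j * s + t < j * s + s := by omega
        _ = (j + 1) * s := by ring
        _ ≤ C * s := Nat.mul_le_mul_right _ hj
    have h2 : L + (j * s + t) < L + C * s := by omega
    have h3 : ¬ (L + (j * s + t) < L) := by omega
    have h4 : L + (j * s + t) - L = j * s + t := by omega
    have h5 : (j * s + t) / s = j := by
      rw [mul_comm, Nat.mul_add_div (by omega), Nat.div_eq_of_lt ht, add_zero]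
    have h6 : (j * s + t) % s = t := by
      rw [mul_comm, Nat.mul_add_mod, Nat.mod_eq_of_lt ht]
    simp only [wit, dif_pos h2, dif_neg h3, h4, h5, h6]

end code

/-- the string of an honest prover: own string, own claims and certificates, universal strings -/
lemma exists_string {V₁ V₂ : Verifier} {O : World} {B : Lang} {L c p m : ℕ}
    (hB : ∀ k ≤ p, V₁.NO2 O k (B k) ∧ V₂.YO2 O k (B k))
    (hm : ∀ k ≤ p, V₁.len k ≤ m ∧ V₂.len k ≤ m) (y : Fin L → Bool) (w : ℕ → ℕ → Bool) :
    ∃ y' : Fin (L + (c + (p + 1)) * (1 + 2 * m)) → Bool, pre y' = y ∧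
      (∀ j < c, ∀ t < 1 + m, wit y' j t = w j t) ∧
      (∀ k ≤ p, ∀ q ∉ B k, ∀ a, V₁.value O k q a (fun j => wit y' (c + k) j) = false) ∧
      (∀ k ≤ p, ∀ q ∈ B k, ∀ b, V₂.value O k q (fun j => wit y' (c + k) (m + j)) b = true) := by
  classical
  have h1 : ∀ k : ℕ, ∃ z₁ : Fin (V₁.len k) → Bool, k ≤ p →
      ∀ q ∉ B k, ∀ a, V₁.value O k q a z₁ = false := by
    intro k
    by_cases hk : k ≤ p
    · obtain ⟨z, -, hz⟩ := (hB k hk).1
      exact ⟨z, fun _ => hz⟩
    · exact ⟨fun _ => false, fun h => absurd h hk⟩
  have h2 : ∀ k : ℕ, ∃ y₂ : Fin (V₂.len k) → Bool, k ≤ p →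
      ∀ q ∈ B k, ∀ b, V₂.value O k q y₂ b = true := by
    intro k
    by_cases hk : k ≤ p
    · obtain ⟨z, hz, -⟩ := (hB k hk).2
      exact ⟨z, fun _ => hz⟩
    · exact ⟨fun _ => false, fun h => absurd h hk⟩
  choose z₁ hz₁ using h1
  choose y₂ hy₂ using h2
  let E : ℕ → ℕ → Bool := fun k t =>
    if t < m then (if h : t < V₁.len k then z₁ k ⟨t, h⟩ else false)
    else (if h : t - m < V₂.len k then y₂ k ⟨t - m, h⟩ else false)
  obtain ⟨y', hy1, hy2⟩ := exists_code (C := c + (p + 1)) (s := 1 + 2 * m) y
    (fun j t => if j < c then w j t else E (j - c) t)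
  refine ⟨y', hy1, ?_, ?_, ?_⟩
  · intro j hj t ht
    rw [hy2 j (by omega) t (by omega), if_pos hj]
  · intro k hk q hq a
    have hlen := (hm k hk).1
    have e : (fun j : Fin (V₁.len k) => wit y' (c + k) j) = z₁ k := by
      funext j
      have hj := j.2
      rw [hy2 (c + k) (by omega) j (by omega), if_neg (by omega)]
      have e1 : c + k - c = k := by omega
      have e2 : (j : ℕ) < m := by omega
      simp only [E, e1, if_pos e2, dif_pos hj]
    rw [e]
    exact hz₁ k hk q hq a
  · intro k hk q hq b
    have hlen := (hm k hk).2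
    have e : (fun j : Fin (V₂.len k) => wit y' (c + k) (m + j)) = y₂ k := by
      funext j
      have hj := j.2
      rw [hy2 (c + k) (by omega) (m + j) (by omega), if_neg (by omega)]
      have e1 : c + k - c = k := by omega
      have e2 : ¬ (m + (j : ℕ) < m) := by omega
      have e3 : m + (j : ℕ) - m = j := by omega
      simp only [E, e1, if_neg e2, e3, dif_pos hj]
    rw [e]
    exact hy₂ k hk q hq b

/-- **Harmless questions.** -/
theorem split (U : SplitVerifier) (V₁ V₂ : Verifier) (m r : ℕ → ℕ)
    (hm : ∀ n, ∀ k ≤ U.size n, V₁.len k ≤ m n ∧ V₂.len k ≤ m n)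
    (hr : ∀ n, ∀ k ≤ U.size n, V₁.cost k ≤ r n ∧ V₂.cost k ≤ r n) :
    ∃ V : Verifier,
      (∀ n, V.len n = U.len n + (U.cost n + (U.size n + 1)) * (1 + 2 * m n)) ∧
      (∀ n, V.cost n = U.cost n * (2 * r n + 3)) ∧
      ∀ (O : World) (B : Lang) (n : ℕ) (S : Set (Ins n)),
        (∀ k ≤ U.size n, V₁.NO2 O k (B k) ∧ V₂.YO2 O k (B k)) →
        U.NO2 O B n S → V.NO2 O n S := by
  classical
  refine ⟨⟨fun n => U.len n + (U.cost n + (U.size n + 1)) * (1 + 2 * m n),
    fun n => U.cost n * (2 * r n + 3),
    fun n x y z => (U.first n x (pre y)).sim V₁ V₂ (wit y)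
      (fun k j => wit z (U.cost n + k) j) (fun k j => wit z (U.cost n + k) (m n + j)) false
      (fun a => (U.second n (pre z)).sim V₁ V₂ (wit z)
        (fun k j => wit y (U.cost n + k) j) (fun k j => wit y (U.cost n + k) (m n + j)) true
        (fun b => U.third n x (pre y) (pre z) a b) 0) 0, ?_⟩, fun _ => rfl, fun _ => rfl, ?_⟩
  · intro n x y z
    have e : U.cost n * (2 * r n + 3)
        = U.cost n * (r n + 1) + (U.cost n * (r n + 1) + U.cost n) := by ring
    show Alg.AtMost _ (U.cost n * (2 * r n + 3))
    rw [e]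
    refine Ask.sim_cost _ _ _ _ _ (U.size n) (r n) _ (hr n) (fun a => ?_) _ _ _
      (U.first_cost n x _)
    exact Ask.sim_cost _ _ _ _ _ (U.size n) (r n) _ (hr n)
      (fun b => U.third_cost n _ _ _ _ _) _ _ _ (U.second_cost n _)
  · rintro O B n S hB ⟨z₀, hy, hn⟩
    have hc1 : ∀ k ≤ U.size n, ∀ q ∈ B k, ∃ y, ∀ z, V₁.value O k q y z = true := by
      intro k hk
      obtain ⟨-, h, -⟩ := (hB k hk).1
      exact h
    have hc2 : ∀ k ≤ U.size n, ∀ q ∉ B k, ∃ z, ∀ y, V₂.value O k q y z = false := by
      intro k hk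
      obtain ⟨-, -, h⟩ := (hB k hk).2
      exact h
    obtain ⟨wz, hwz⟩ := Ask.sim_complete hc1 hc2 (hm n) (U.second n z₀) (U.cost n) 0
      (U.second_cost n z₀)
    obtain ⟨z', hz1, hz2, hz3, hz4⟩ := exists_string (c := U.cost n) hB (hm n) z₀ wz
    refine ⟨z', fun x hx => ?_, fun x hx y => ?_⟩
    · obtain ⟨y, hy'⟩ := hy x hx
      obtain ⟨wy, hwy⟩ := Ask.sim_complete hc1 hc2 (hm n) (U.first n x y) (U.cost n) 0
        (U.first_cost n x y)
      obtain ⟨y', hy1, hy2, hy3, hy4⟩ := exists_string (c := U.cost n) hB (hm n) y wy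
      refine ⟨y', fun z => ?_⟩
      show Alg.run O ((U.first n x (pre y')).sim V₁ V₂ (wit y')
        (fun k j => wit z (U.cost n + k) j) (fun k j => wit z (U.cost n + k) (m n + j)) false
        (fun a => (U.second n (pre z)).sim V₁ V₂ (wit z)
          (fun k j => wit y' (U.cost n + k) j) (fun k j => wit y' (U.cost n + k) (m n + j)) true
          (fun b => U.third n x (pre y') (pre z) a b) 0) 0) = true
      rw [hy1, hwy (wit y') (fun j _ hj t ht => hy2 j (by omega) t ht)]
      rcases Ask.sim_sound (B := B) (V₁ := V₁) (V₂ := V₂) (wit z)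
        (e₁ := fun k j => wit y' (U.cost n + k) j)
        (e₂ := fun k j => wit y' (U.cost n + k) (m n + j)) hy3 hy4 true
        (fun b => U.third n x y (pre z) ((U.first n x y).run O B) b) (U.second n (pre z))
        (U.cost n) 0 (U.second_cost n _) with h | h
      · exact h
      · rw [h]
        exact hy' (pre z)
    · show Alg.run O ((U.first n x (pre y)).sim V₁ V₂ (wit y)
        (fun k j => wit z' (U.cost n + k) j) (fun k j => wit z' (U.cost n + k) (m n + j)) false
        (fun a => (U.second n (pre z')).sim V₁ V₂ (wit z')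
          (fun k j => wit y (U.cost n + k) j) (fun k j => wit y (U.cost n + k) (m n + j)) true
          (fun b => U.third n x (pre y) (pre z') a b) 0) 0) = false
      rcases Ask.sim_sound (B := B) (V₁ := V₁) (V₂ := V₂) (wit y)
        (e₁ := fun k j => wit z' (U.cost n + k) j)
        (e₂ := fun k j => wit z' (U.cost n + k) (m n + j)) hz3 hz4 false
        (fun a => (U.second n (pre z')).sim V₁ V₂ (wit z')
          (fun k j => wit y (U.cost n + k) j) (fun k j => wit y (U.cost n + k) (m n + j)) true
          (fun b => U.third n x (pre y) (pre z') a b) 0) (U.first n x (pre y))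
        (U.cost n) 0 (U.first_cost n x _) with h | h
      · exact h
      · rw [h, hz1, hwz (wit z') (fun j _ hj t ht => hz2 j (by omega) t ht)]
        exact hn x hx (pre y)

end Pool.Agent.H.MP_7934a7_lc.h89.OneQ
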